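import Pool.Agent.helper14.Kus3.Defs

/-!
# F6: the cubature formula

The 42 point rule (12 vertices and 30 edge midpoints of an icosahedron) integrates every polynomial
of degree at most six on the sphere exactly.
-/

open Set Metric MeasureTheory
open scoped ContDiff Topology

namespace Kusner
namespace P
namespace Cub

/-- Coefficient of `p ^ 0 * v ^ 0` in `psi`. -/
noncomputable def k00 (e m : ℝ) : ℝ :=
  12*e^2 - 24*e^2*m^2 + 56*e^4 - 8*e^6 - 24*e^6*m^2 - 168*e^8 + 108*e^10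

/-- Coefficient of `p ^ 0 * v ^ 1` in `psi`. -/
noncomputable def k01 (e m : ℝ) : ℝ :=
  12*e*m + 72*e^3*m - 72*e^5*m - 408*e^7*m + 396*e^9*m

/-- Coefficient of `p ^ 0 * v ^ 2` in `psi`. -/
noncomputable def k02 (e m : ℝ) : ℝ :=
  48*e^2 + 192*e^4 - 144*e^4*m^2 - 792*e^6 + 576*e^6*m^2 + 912*e^8 - 576*e^8*m^2 - 360*e^10

/-- Coefficient of `p ^ 0 * v ^ 3` in `psi`. -/
noncomputable def k03 (e m : ℝ) : ℝ :=
  144*e^3*m - 1008*e^7*m + 864*e^9*m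

/-- Coefficient of `p ^ 0 * v ^ 4` in `psi`. -/
noncomputable def k04 (e _m : ℝ) : ℝ :=
  -36*e^2 - 144*e^4 + 72*e^6 + 432*e^8 - 324*e^10

/-- Coefficient of `p ^ 1 * v ^ 0` in `psi`. -/
noncomputable def k10 (e m : ℝ) : ℝ :=
  4 - 12*m^2 + 168*e^2*m^2 - 216*e^4 + 168*e^4*m^2 - 88*e^6 + 360*e^6*m^2 + 516*e^8 -
  396*e^8*m^2 - 216*e^10

/-- Coefficient of `p ^ 1 * v ^ 1` in `psi`. -/
noncomputable def k11 (e m : ℝ) : ℝ :=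
  -48*e*m - 432*e^3*m + 1200*e^5*m - 576*e^5*m^3 - 240*e^7*m + 1152*e^7*m^3 - 576*e^9*m

/-- Coefficient of `p ^ 1 * v ^ 2` in `psi`. -/
noncomputable def k12 (e m : ℝ) : ℝ :=
  -144*e^2 - 144*e^2*m^2 - 432*e^4 + 1152*e^4*m^2 + 3072*e^6 - 1296*e^6*m^2 - 5232*e^8 +
  576*e^8*m^2 + 2736*e^10

/-- Coefficient of `p ^ 1 * v ^ 3` in `psi`. -/
noncomputable def k13 (e m : ℝ) : ℝ :=
  72*e*m - 288*e^3*m - 432*e^5*m + 2592*e^7*m - 1944*e^9*m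

/-- Coefficient of `p ^ 1 * v ^ 4` in `psi`. -/
noncomputable def k14 (e _m : ℝ) : ℝ :=
  72*e^2 + 288*e^4 - 144*e^6 - 864*e^8 + 648*e^10

/-- Coefficient of `p ^ 2 * v ^ 0` in `psi`. -/
noncomputable def k20 (e m : ℝ) : ℝ :=
  -12 + 72*m^2 - 84*e^2 - 216*e^2*m^2 + 312*e^4 - 720*e^4*m^2 + 216*e^6 - 312*e^6*m^2 -
  576*e^6*m^4 - 540*e^8 + 936*e^8*m^2 + 108*e^10

/-- Coefficient of `p ^ 2 * v ^ 1` in `psi`. -/
noncomputable def k21 (e m : ℝ) : ℝ :=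
  -36*e*m + 768*e^3*m - 288*e^3*m^3 - 2952*e^5*m + 2304*e^5*m^3 + 6624*e^7*m - 3744*e^7*m^3 -
  4068*e^9*m

/-- Coefficient of `p ^ 2 * v ^ 2` in `psi`. -/
noncomputable def k22 (e m : ℝ) : ℝ :=
  -36*m^2 + 132*e^2 + 432*e^2*m^2 + 120*e^4 - 2376*e^4*m^2 - 4392*e^6 + 432*e^6*m^2 + 10296*e^8
  + 1404*e^8*m^2 - 6156*e^10

/-- Coefficient of `p ^ 2 * v ^ 3` in `psi`. -/
noncomputable def k23 (e m : ℝ) : ℝ :=
  -144*e*m + 144*e^3*m + 864*e^5*m - 2160*e^7*m + 1296*e^9*m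

/-- Coefficient of `p ^ 2 * v ^ 4` in `psi`. -/
noncomputable def k24 (e _m : ℝ) : ℝ :=
  -36*e^2 - 144*e^4 + 72*e^6 + 432*e^8 - 324*e^10

/-- Coefficient of `p ^ 3 * v ^ 0` in `psi`. -/
noncomputable def k30 (e m : ℝ) : ℝ :=
  12 - 108*m^2 + 144*e^2 - 336*e^2*m^2 - 200*e^4 + 648*e^4*m^2 - 112*e^6 - 1872*e^6*m^2 +
  2304*e^6*m^4 + 204*e^8 + 1332*e^8*m^2

/-- Coefficient of `p ^ 3 * v ^ 1` in `psi`. -/
noncomputable def k31 (e m : ℝ) : ℝ :=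
  288*e*m - 432*e^3*m + 864*e^3*m^3 + 2304*e^5*m - 3456*e^5*m^3 - 14352*e^7*m + 4320*e^7*m^3 +
  11808*e^9*m

/-- Coefficient of `p ^ 3 * v ^ 2` in `psi`. -/
noncomputable def k32 (e m : ℝ) : ℝ :=
  72*m^2 - 24*e^2 - 432*e^2*m^2 + 288*e^4 + 1872*e^4*m^2 + 2736*e^6 + 720*e^6*m^2 - 8544*e^8 -
  2232*e^8*m^2 + 5544*e^10

/-- Coefficient of `p ^ 3 * v ^ 3` in `psi`. -/
noncomputable def k33 (e m : ℝ) : ℝ :=
  72*e*m - 432*e^5*m + 576*e^7*m - 216*e^9*m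

/-- Coefficient of `p ^ 4 * v ^ 0` in `psi`. -/
noncomputable def k40 (e m : ℝ) : ℝ :=
  -4 + 12*m^2 - 96*e^2 + 984*e^2*m^2 + 48*e^4 + 696*e^4*m^2 - 32*e^6 + 4248*e^6*m^2 -
  3456*e^6*m^4 - 12*e^8 - 5652*e^8*m^2

/-- Coefficient of `p ^ 4 * v ^ 1` in `psi`. -/
noncomputable def k41 (e m : ℝ) : ℝ :=
  -336*e*m - 72*e^3*m - 864*e^3*m^3 - 192*e^5*m + 2304*e^5*m^3 + 11832*e^7*m - 2016*e^7*m^3 -
  11088*e^9*m

/-- Coefficient of `p ^ 4 * v ^ 2` in `psi`. -/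
noncomputable def k42 (e m : ℝ) : ℝ :=
  -36*m^2 - 12*e^2 + 144*e^2*m^2 - 168*e^4 - 504*e^4*m^2 - 624*e^6 - 432*e^6*m^2 + 2568*e^8 +
  828*e^8*m^2 - 1764*e^10

/-- Coefficient of `p ^ 5 * v ^ 0` in `psi`. -/
noncomputable def k50 (e m : ℝ) : ℝ :=
  72*m^2 + 24*e^2 - 792*e^2*m^2 - 1296*e^4*m^2 + 24*e^6 - 3288*e^6*m^2 + 2304*e^6*m^4 +
  5544*e^8*m^2

/-- Coefficient of `p ^ 5 * v ^ 1` in `psi`. -/
noncomputable def k51 (e m : ℝ) : ℝ :=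
  120*e*m + 96*e^3*m + 288*e^3*m^3 - 288*e^5*m - 576*e^5*m^3 - 3456*e^7*m + 288*e^7*m^3 +
  3528*e^9*m

/-- Coefficient of `p ^ 6 * v ^ 0` in `psi`. -/
noncomputable def k60 (e m : ℝ) : ℝ :=
  -36*m^2 + 216*e^2*m^2 + 504*e^4*m^2 + 888*e^6*m^2 - 576*e^6*m^4 - 1764*e^8*m^2

theorem psi_expand (e m p v : ℝ) : psi e m p v =
    k00 e m * (p ^ 0 * v ^ 0) + k01 e m * (p ^ 0 * v ^ 1) + k02 e m * (p ^ 0 * v ^ 2) + k03 e m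
    * (p ^ 0 * v ^ 3) + k04 e m * (p ^ 0 * v ^ 4) + k10 e m * (p ^ 1 * v ^ 0) + k11 e m * (p ^
    1 * v ^ 1) + k12 e m * (p ^ 1 * v ^ 2) + k13 e m * (p ^ 1 * v ^ 3) + k14 e m * (p ^ 1 * v ^
    4) + k20 e m * (p ^ 2 * v ^ 0) + k21 e m * (p ^ 2 * v ^ 1) + k22 e m * (p ^ 2 * v ^ 2) +
    k23 e m * (p ^ 2 * v ^ 3) + k24 e m * (p ^ 2 * v ^ 4) + k30 e m * (p ^ 3 * v ^ 0) + k31 e m
    * (p ^ 3 * v ^ 1) + k32 e m * (p ^ 3 * v ^ 2) + k33 e m * (p ^ 3 * v ^ 3) + k40 e m * (p ^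
    4 * v ^ 0) + k41 e m * (p ^ 4 * v ^ 1) + k42 e m * (p ^ 4 * v ^ 2) + k50 e m * (p ^ 5 * v ^
    0) + k51 e m * (p ^ 5 * v ^ 1) + k60 e m * (p ^ 6 * v ^ 0) := by
  unfold psi psi0 psi1 psi2 psi3 psi4 psi5 psi6
  unfold k00 k01 k02 k03 k04 k10 k11 k12 k13 k14 k20 k21 k22 k23 k24 k30 k31 k32 k33 k40 k41 k42 k50 k51 k60
  ring

theorem ident2 (a b c g : ℝ) (hg : g ^ 2 - g - 1 = 0) :
    5/252*2*((3-g)/5)^1*((b + g*c)^2 + (-b + g*c)^2 + (a + g*b)^2 + (-a + g*b)^2 + (g*a + c)^2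
    + (g*a - c)^2) + 8/315*2*(a^2 + b^2 + c^2 + (1/2*a + (g-1)/2*b + g/2*c)^2 + (1/2*a +
    (g-1)/2*b - g/2*c)^2 + (1/2*a - (g-1)/2*b + g/2*c)^2 + (1/2*a - (g-1)/2*b - g/2*c)^2 +
    (g/2*a + 1/2*b + (g-1)/2*c)^2 + (-(g/2)*a + 1/2*b + (g-1)/2*c)^2 + (g/2*a + 1/2*b -
    (g-1)/2*c)^2 + (-(g/2)*a + 1/2*b - (g-1)/2*c)^2 + ((g-1)/2*a + g/2*b + 1/2*c)^2 +
    (-((g-1)/2)*a + g/2*b + 1/2*c)^2 + ((g-1)/2*a - g/2*b + 1/2*c)^2 + (-((g-1)/2)*a - g/2*b +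
    1/2*c)^2) = (a^2+b^2+c^2)^1/3 := by
  linear_combination (
    (2/15)*c^2 + (-1/63)*c^2*g + (2/15)*b^2 + (-1/63)*b^2*g + (2/15)*a^2 + (-1/63)*a^2*g) * hg

theorem ident4 (a b c g : ℝ) (hg : g ^ 2 - g - 1 = 0) :
    5/252*2*((3-g)/5)^2*((b + g*c)^4 + (-b + g*c)^4 + (a + g*b)^4 + (-a + g*b)^4 + (g*a + c)^4
    + (g*a - c)^4) + 8/315*2*(a^4 + b^4 + c^4 + (1/2*a + (g-1)/2*b + g/2*c)^4 + (1/2*a +
    (g-1)/2*b - g/2*c)^4 + (1/2*a - (g-1)/2*b + g/2*c)^4 + (1/2*a - (g-1)/2*b - g/2*c)^4 +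
    (g/2*a + 1/2*b + (g-1)/2*c)^4 + (-(g/2)*a + 1/2*b + (g-1)/2*c)^4 + (g/2*a + 1/2*b -
    (g-1)/2*c)^4 + (-(g/2)*a + 1/2*b - (g-1)/2*c)^4 + ((g-1)/2*a + g/2*b + 1/2*c)^4 +
    (-((g-1)/2)*a + g/2*b + 1/2*c)^4 + ((g-1)/2*a - g/2*b + 1/2*c)^4 + (-((g-1)/2)*a - g/2*b +
    1/2*c)^4) = (a^2+b^2+c^2)^2/5 := by
  linear_combination (
    (2/21)*c^4 + (-8/315)*c^4*g + (13/315)*c^4*g^2 + (-1/63)*c^4*g^3 + (1/315)*c^4*g^4 +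
    (34/105)*b^2*c^2 + (-6/35)*b^2*c^2*g + (2/21)*b^2*c^2*g^2 + (2/21)*b^4 + (-8/315)*b^4*g +
    (13/315)*b^4*g^2 + (-1/63)*b^4*g^3 + (1/315)*b^4*g^4 + (34/105)*a^2*c^2 + (-6/35)*a^2*c^2*g
    + (2/21)*a^2*c^2*g^2 + (34/105)*a^2*b^2 + (-6/35)*a^2*b^2*g + (2/21)*a^2*b^2*g^2 +
    (2/21)*a^4 + (-8/315)*a^4*g + (13/315)*a^4*g^2 + (-1/63)*a^4*g^3 + (1/315)*a^4*g^4) * hg

theorem ident6 (a b c g : ℝ) (hg : g ^ 2 - g - 1 = 0) :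
    5/252*2*((3-g)/5)^3*((b + g*c)^6 + (-b + g*c)^6 + (a + g*b)^6 + (-a + g*b)^6 + (g*a + c)^6
    + (g*a - c)^6) + 8/315*2*(a^6 + b^6 + c^6 + (1/2*a + (g-1)/2*b + g/2*c)^6 + (1/2*a +
    (g-1)/2*b - g/2*c)^6 + (1/2*a - (g-1)/2*b + g/2*c)^6 + (1/2*a - (g-1)/2*b - g/2*c)^6 +
    (g/2*a + 1/2*b + (g-1)/2*c)^6 + (-(g/2)*a + 1/2*b + (g-1)/2*c)^6 + (g/2*a + 1/2*b -
    (g-1)/2*c)^6 + (-(g/2)*a + 1/2*b - (g-1)/2*c)^6 + ((g-1)/2*a + g/2*b + 1/2*c)^6 +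
    (-((g-1)/2)*a + g/2*b + 1/2*c)^6 + ((g-1)/2*a - g/2*b + 1/2*c)^6 + (-((g-1)/2)*a - g/2*b +
    1/2*c)^6) = (a^2+b^2+c^2)^3/7 := by
  linear_combination (
    (12/175)*c^6 + (-17/525)*c^6*g + (1/21)*c^6*g^2 + (-1/63)*c^6*g^3 + (1/63)*c^6*g^4 +
    (-4/315)*c^6*g^5 + (8/1575)*c^6*g^6 + (-1/1575)*c^6*g^7 + (8/21)*b^2*c^4 +
    (-4/21)*b^2*c^4*g + (5/21)*b^2*c^4*g^2 + (-5/21)*b^2*c^4*g^3 + (13/105)*b^2*c^4*g^4 +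
    (-1/105)*b^2*c^4*g^5 + (8/21)*b^4*c^2 + (-2/7)*b^4*c^2*g + (11/35)*b^4*c^2*g^2 +
    (-16/105)*b^4*c^2*g^3 + (1/21)*b^4*c^2*g^4 + (12/175)*b^6 + (-17/525)*b^6*g +
    (1/21)*b^6*g^2 + (-1/63)*b^6*g^3 + (1/63)*b^6*g^4 + (-4/315)*b^6*g^5 + (8/1575)*b^6*g^6 +
    (-1/1575)*b^6*g^7 + (8/21)*a^2*c^4 + (-2/7)*a^2*c^4*g + (11/35)*a^2*c^4*g^2 +
    (-16/105)*a^2*c^4*g^3 + (1/21)*a^2*c^4*g^4 + (6/7)*a^2*b^2*c^2 + (-6/7)*a^2*b^2*c^2*g +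
    (6/7)*a^2*b^2*c^2*g^2 + (8/21)*a^2*b^4 + (-4/21)*a^2*b^4*g + (5/21)*a^2*b^4*g^2 +
    (-5/21)*a^2*b^4*g^3 + (13/105)*a^2*b^4*g^4 + (-1/105)*a^2*b^4*g^5 + (8/21)*a^4*c^2 +
    (-4/21)*a^4*c^2*g + (5/21)*a^4*c^2*g^2 + (-5/21)*a^4*c^2*g^3 + (13/105)*a^4*c^2*g^4 +
    (-1/105)*a^4*c^2*g^5 + (8/21)*a^4*b^2 + (-2/7)*a^4*b^2*g + (11/35)*a^4*b^2*g^2 +
    (-16/105)*a^4*b^2*g^3 + (1/21)*a^4*b^2*g^4 + (12/175)*a^6 + (-17/525)*a^6*g +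
    (1/21)*a^6*g^2 + (-1/63)*a^6*g^3 + (1/63)*a^6*g^4 + (-4/315)*a^6*g^5 + (8/1575)*a^6*g^6 +
    (-1/1575)*a^6*g^7) * hg


theorem inner_mk (a b c : ℝ) (u : E3) : inner ℝ (!₂[a, b, c] : E3) u = a * u 0 + b * u 1 + c * u 2 := by
  simp [PiLp.inner_apply, Fin.sum_univ_three, mul_comm]

theorem norm_sq_eq (u : E3) : ‖u‖ ^ 2 = u 0 ^ 2 + u 1 ^ 2 + u 2 ^ 2 := by
  rw [EuclideanSpace.norm_sq_eq, Fin.sum_univ_three]
  simp [sq_abs]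

theorem golden : Real.goldenRatio ^ 2 - Real.goldenRatio - 1 = 0 := by
  rw [Real.goldenRatio_sq]; ring

theorem cc_sq : (1 / Real.sqrt (1 + Real.goldenRatio ^ 2)) ^ 2 = (3 - Real.goldenRatio) / 5 := by
  have h := golden
  have h1 : 0 < 1 + Real.goldenRatio ^ 2 := by positivity
  rw [div_pow, one_pow, Real.sq_sqrt h1.le, div_eq_div_iff h1.ne' (by norm_num)]
  linear_combination (Real.goldenRatio - 2) * h

/-- Sum over the poles, in pairs. -/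
theorem sum_pidx (f : E3 → ℝ) : ∑ i : PIdx, pw i * f (pole i) =
    ∑ j : Fin 6, 5 / 252 * (f ((1 / Real.sqrt (1 + Real.goldenRatio ^ 2)) • axes5 j) +
      f (-((1 / Real.sqrt (1 + Real.goldenRatio ^ 2)) • axes5 j))) +
    ∑ j : Fin 15, 8 / 315 * (f (axes2 j) + f (-axes2 j)) := by
  rw [Fintype.sum_prod_type, Fintype.sum_sum_type]
  congr 1
  · refine Finset.sum_congr rfl fun j _ => ?_
    simp only [Fintype.sum_bool, pw, pole]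
    simp [mul_add]
  · refine Finset.sum_congr rfl fun j _ => ?_
    simp only [Fintype.sum_bool, pw, pole]
    simp [mul_add]

/-- The moments. -/
noncomputable def mom (y N : E3) (a b : ℕ) : ℝ :=
  ∑ i : PIdx, pw i * (inner ℝ (pole i) y ^ a * inner ℝ (pole i) N ^ b)

theorem mom_odd (y N : E3) (a b : ℕ) (h : Odd (a + b)) : mom y N a b = 0 := by
  unfold mom
  have h1 := sum_pidx (fun u => inner ℝ u y ^ a * inner ℝ u N ^ b)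
  rw [h1]
  have h2 : ∀ u : E3, inner ℝ u y ^ a * inner ℝ u N ^ b +
      inner ℝ (-u) y ^ a * inner ℝ (-u) N ^ b = 0 := by
    intro u
    rw [inner_neg_left, inner_neg_left, neg_pow (inner ℝ u y), neg_pow (inner ℝ u N)]
    have h3 : (-1 : ℝ) ^ a * (-1 : ℝ) ^ b = -1 := by rw [← pow_add, h.neg_one_pow]
    linear_combination (inner ℝ u y ^ a * inner ℝ u N ^ b) * h3
  simp only [h2, mul_zero, Finset.sum_const_zero, add_zero]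

theorem pow_even (k : ℕ) (u : E3) : ∑ i : PIdx, pw i * inner ℝ (pole i) u ^ (2 * k) =
    5 / 252 * 2 * ((3 - Real.goldenRatio) / 5) ^ k * ∑ j : Fin 6, inner ℝ (axes5 j) u ^ (2 * k) +
    8 / 315 * 2 * ∑ j : Fin 15, inner ℝ (axes2 j) u ^ (2 * k) := by
  rw [sum_pidx (fun v => inner ℝ v u ^ (2 * k)), Finset.mul_sum, Finset.mul_sum]
  congr 1
  · refine Finset.sum_congr rfl fun j _ => ?_
    rw [inner_neg_left, (even_two_mul k).neg_pow, real_inner_smul_left, mul_pow, pow_mul,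
      cc_sq]
    ring
  · refine Finset.sum_congr rfl fun j _ => ?_
    rw [inner_neg_left, (even_two_mul k).neg_pow]
    ring

theorem pow_zero' : ∑ i : PIdx, pw i = 1 := by
  have h := sum_pidx (fun _ => 1)
  simp only [mul_one] at h
  rw [h]
  norm_num

theorem pow_two' (u : E3) : ∑ i : PIdx, pw i * inner ℝ (pole i) u ^ 2 = (‖u‖ ^ 2) / 3 := by
  have h := pow_even 1 u
  simp only [mul_one] at h
  rw [h, norm_sq_eq]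
  have h2 := ident2 (u 0) (u 1) (u 2) Real.goldenRatio golden
  simp only [pow_one] at h2
  rw [← h2]
  simp only [Fin.sum_univ_succ, Fin.sum_univ_zero, axes5, axes2]
  simp [inner_mk]
  ring

theorem pow_four' (u : E3) : ∑ i : PIdx, pw i * inner ℝ (pole i) u ^ 4 = (‖u‖ ^ 2) ^ 2 / 5 := by
  have h := pow_even 2 u
  simp only [show 2 * 2 = 4 from rfl] at h
  rw [h, norm_sq_eq]
  have h2 := ident4 (u 0) (u 1) (u 2) Real.goldenRatio golden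
  rw [← h2]
  simp only [Fin.sum_univ_succ, Fin.sum_univ_zero, axes5, axes2]
  simp [inner_mk]
  ring

theorem pow_six' (u : E3) : ∑ i : PIdx, pw i * inner ℝ (pole i) u ^ 6 = (‖u‖ ^ 2) ^ 3 / 7 := by
  have h := pow_even 3 u
  simp only [show 2 * 3 = 6 from rfl] at h
  rw [h, norm_sq_eq]
  have h2 := ident6 (u 0) (u 1) (u 2) Real.goldenRatio golden
  rw [← h2]
  simp only [Fin.sum_univ_succ, Fin.sum_univ_zero, axes5, axes2]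
  simp [inner_mk]
  ring

theorem coeffs (c0 c1 c2 c3 c4 c5 c6 : ℝ)
    (h : ∀ τ : ℝ, c0 + c1 * τ + c2 * τ ^ 2 + c3 * τ ^ 3 + c4 * τ ^ 4 + c5 * τ ^ 5 +
      c6 * τ ^ 6 = 0) :
    c0 = 0 ∧ c1 = 0 ∧ c2 = 0 ∧ c3 = 0 ∧ c4 = 0 ∧ c5 = 0 ∧ c6 = 0 := by
  have h0 := h 0
  have h1 := h 1
  have h2 := h (-1)
  have h3 := h 2
  have h4 := h (-2)
  have h5 := h 3
  have h6 := h (-3)
  norm_num at h0 h1 h2 h3 h4 h5 h6
  refine ⟨by linarith, by linarith, by linarith, by linarith, by linarith, by linarith,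
    by linarith⟩

theorem norm_add_smul_sq (y N : E3) (τ : ℝ) :
    ‖y + τ • N‖ ^ 2 = ‖y‖ ^ 2 + 2 * τ * inner ℝ y N + τ ^ 2 * ‖N‖ ^ 2 := by
  rw [norm_add_sq_real, real_inner_smul_right, norm_smul, mul_pow, Real.norm_eq_abs, sq_abs]
  ring

theorem moments2 (y N : E3) : mom y N 2 0 = ‖y‖ ^ 2 / 3 ∧ mom y N 1 1 = inner ℝ y N / 3 ∧
    mom y N 0 2 = ‖N‖ ^ 2 / 3 := by
  have key : ∀ τ : ℝ, mom y N 2 0 + 2 * τ * mom y N 1 1 + τ ^ 2 * mom y N 0 2 =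
      (‖y‖ ^ 2 + 2 * τ * inner ℝ y N + τ ^ 2 * ‖N‖ ^ 2) / 3 := by
    intro τ
    rw [← norm_add_smul_sq, ← pow_two']
    unfold mom
    simp only [Finset.mul_sum, ← Finset.sum_add_distrib]
    refine Finset.sum_congr rfl fun i _ => ?_
    rw [inner_add_right, real_inner_smul_right]
    ring
  obtain ⟨h0, h1, h2, -⟩ := coeffs (mom y N 2 0 - ‖y‖ ^ 2 / 3)
    (2 * mom y N 1 1 - 2 * inner ℝ y N / 3) (mom y N 0 2 - ‖N‖ ^ 2 / 3) 0 0 0 0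
    (fun τ => by linear_combination key τ)
  exact ⟨by linarith, by linarith, by linarith⟩

theorem moments4 (y N : E3) : mom y N 4 0 = (‖y‖ ^ 2) ^ 2 / 5 ∧
    mom y N 3 1 = ‖y‖ ^ 2 * inner ℝ y N / 5 ∧
    mom y N 2 2 = (‖y‖ ^ 2 * ‖N‖ ^ 2 + 2 * inner ℝ y N ^ 2) / 15 ∧
    mom y N 1 3 = inner ℝ y N * ‖N‖ ^ 2 / 5 ∧ mom y N 0 4 = (‖N‖ ^ 2) ^ 2 / 5 := by
  have key : ∀ τ : ℝ, mom y N 4 0 + 4 * τ * mom y N 3 1 + 6 * τ ^ 2 * mom y N 2 2 +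
      4 * τ ^ 3 * mom y N 1 3 + τ ^ 4 * mom y N 0 4 =
      (‖y‖ ^ 2 + 2 * τ * inner ℝ y N + τ ^ 2 * ‖N‖ ^ 2) ^ 2 / 5 := by
    intro τ
    rw [← norm_add_smul_sq, ← pow_four']
    unfold mom
    simp only [Finset.mul_sum, ← Finset.sum_add_distrib]
    refine Finset.sum_congr rfl fun i _ => ?_
    rw [inner_add_right, real_inner_smul_right]
    ring
  obtain ⟨h0, h1, h2, h3, h4, -⟩ := coeffs (mom y N 4 0 - (‖y‖ ^ 2) ^ 2 / 5)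
    (4 * mom y N 3 1 - 4 * (‖y‖ ^ 2 * inner ℝ y N) / 5)
    (6 * mom y N 2 2 - (2 * (‖y‖ ^ 2 * ‖N‖ ^ 2) + 4 * inner ℝ y N ^ 2) / 5)
    (4 * mom y N 1 3 - 4 * (inner ℝ y N * ‖N‖ ^ 2) / 5)
    (mom y N 0 4 - (‖N‖ ^ 2) ^ 2 / 5) 0 0
    (fun τ => by linear_combination key τ)
  exact ⟨by linarith, by linarith, by linarith, by linarith, by linarith⟩

theorem moments6 (y N : E3) : mom y N 6 0 = (‖y‖ ^ 2) ^ 3 / 7 ∧
    mom y N 5 1 = (‖y‖ ^ 2) ^ 2 * inner ℝ y N / 7 ∧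
    mom y N 4 2 = (3 * (‖y‖ ^ 2) ^ 2 * ‖N‖ ^ 2 + 12 * ‖y‖ ^ 2 * inner ℝ y N ^ 2) / 105 ∧
    mom y N 3 3 = (12 * ‖y‖ ^ 2 * inner ℝ y N * ‖N‖ ^ 2 + 8 * inner ℝ y N ^ 3) / 140 ∧
    mom y N 2 4 = (3 * ‖y‖ ^ 2 * (‖N‖ ^ 2) ^ 2 + 12 * inner ℝ y N ^ 2 * ‖N‖ ^ 2) / 105 := by
  have key : ∀ τ : ℝ, mom y N 6 0 + 6 * τ * mom y N 5 1 + 15 * τ ^ 2 * mom y N 4 2 +
      20 * τ ^ 3 * mom y N 3 3 + 15 * τ ^ 4 * mom y N 2 4 + 6 * τ ^ 5 * mom y N 1 5 +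
      τ ^ 6 * mom y N 0 6 =
      (‖y‖ ^ 2 + 2 * τ * inner ℝ y N + τ ^ 2 * ‖N‖ ^ 2) ^ 3 / 7 := by
    intro τ
    rw [← norm_add_smul_sq, ← pow_six']
    unfold mom
    simp only [Finset.mul_sum, ← Finset.sum_add_distrib]
    refine Finset.sum_congr rfl fun i _ => ?_
    rw [inner_add_right, real_inner_smul_right]
    ring
  obtain ⟨h0, h1, h2, h3, h4, -⟩ := coeffs (mom y N 6 0 - (‖y‖ ^ 2) ^ 3 / 7)
    (6 * mom y N 5 1 - 6 * ((‖y‖ ^ 2) ^ 2 * inner ℝ y N) / 7)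
    (15 * mom y N 4 2 - (3 * (‖y‖ ^ 2) ^ 2 * ‖N‖ ^ 2 + 12 * ‖y‖ ^ 2 * inner ℝ y N ^ 2) / 7)
    (20 * mom y N 3 3 - (12 * ‖y‖ ^ 2 * inner ℝ y N * ‖N‖ ^ 2 + 8 * inner ℝ y N ^ 3) / 7)
    (15 * mom y N 2 4 - (3 * ‖y‖ ^ 2 * (‖N‖ ^ 2) ^ 2 + 12 * inner ℝ y N ^ 2 * ‖N‖ ^ 2) / 7)
    (6 * mom y N 1 5 - 6 * (inner ℝ y N * (‖N‖ ^ 2) ^ 2) / 7)
    (mom y N 0 6 - (‖N‖ ^ 2) ^ 3 / 7)
    (fun τ => by linear_combination key τ)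
  exact ⟨by linarith, by linarith, by linarith, by linarith, by linarith⟩

theorem mom_zero (y N : E3) : mom y N 0 0 = 1 := by
  unfold mom
  simp only [pow_zero, mul_one]
  exact pow_zero'

theorem sum_expand (e m : ℝ) (y N : E3) :
    ∑ i : PIdx, pw i * psi e m (inner ℝ (pole i) y) (inner ℝ (pole i) N) =
      k00 e m * mom y N 0 0 + k01 e m * mom y N 0 1 + k02 e m * mom y N 0 2 + k03 e m * mom y N
      0 3 + k04 e m * mom y N 0 4 + k10 e m * mom y N 1 0 + k11 e m * mom y N 1 1 + k12 e m *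
      mom y N 1 2 + k13 e m * mom y N 1 3 + k14 e m * mom y N 1 4 + k20 e m * mom y N 2 0 + k21
      e m * mom y N 2 1 + k22 e m * mom y N 2 2 + k23 e m * mom y N 2 3 + k24 e m * mom y N 2 4
      + k30 e m * mom y N 3 0 + k31 e m * mom y N 3 1 + k32 e m * mom y N 3 2 + k33 e m * mom y
      N 3 3 + k40 e m * mom y N 4 0 + k41 e m * mom y N 4 1 + k42 e m * mom y N 4 2 + k50 e m *
      mom y N 5 0 + k51 e m * mom y N 5 1 + k60 e m * mom y N 6 0 := by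
  unfold mom
  simp only [Finset.mul_sum, ← Finset.sum_add_distrib]
  refine Finset.sum_congr rfl fun i _ => ?_
  rw [psi_expand]
  ring

end Cub

open Cub

theorem pw_pos (i : PIdx) : 0 < pw i := by
  unfold pw
  rcases i with ⟨j | j, s⟩ <;> norm_num

theorem norm_axes5 (j : Fin 6) : ‖axes5 j‖ ^ 2 = 1 + Real.goldenRatio ^ 2 := by
  rw [norm_sq_eq]
  fin_cases j <;> simp [axes5] <;> ring

theorem norm_axes2 (j : Fin 15) : ‖axes2 j‖ ^ 2 = 1 := by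
  rw [norm_sq_eq]
  have h := golden
  fin_cases j <;> simp [axes2] <;> linear_combination (1 / 2) * h

theorem norm_pole (i : PIdx) : ‖pole i‖ = 1 := by
  have h1 : 0 < 1 + Real.goldenRatio ^ 2 := by positivity
  have hs : ∀ b : Bool, ‖(if b then (1 : ℝ) else -1)‖ = 1 := by
    intro b; cases b <;> simp
  rcases i with ⟨j | j, s⟩
  · unfold pole
    rw [norm_smul, hs, one_mul]
    simp only
    rw [norm_smul, norm_div, norm_one, Real.norm_eq_abs, abs_of_pos (Real.sqrt_pos.2 h1)]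
    have h2 : ‖axes5 j‖ = Real.sqrt (1 + Real.goldenRatio ^ 2) := by
      rw [← norm_axes5 j, Real.sqrt_sq (norm_nonneg _)]
    rw [h2]
    field_simp
  · unfold pole
    rw [norm_smul, hs, one_mul]
    simp only
    have h2 := norm_axes2 j
    have h3 : ‖axes2 j‖ = Real.sqrt 1 := by
      rw [← h2, Real.sqrt_sq (norm_nonneg _)]
    rw [h3, Real.sqrt_one]

theorem cubature {e m : ℝ} {y N : E3} (hy : ‖y‖ ^ 2 = 1 - e ^ 2) (hN : ‖N‖ ^ 2 = 1 - m ^ 2)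
    (hyN : inner ℝ y N = -(e * m)) :
    ∑ i : PIdx, pw i * psi e m (inner ℝ (pole i) y) (inner ℝ (pole i) N) = Phi e m := by
  rw [sum_expand, mom_zero]
  obtain ⟨h20, h11, h02⟩ := moments2 y N
  obtain ⟨h40, h31, h22, h13, h04⟩ := moments4 y N
  obtain ⟨h60, h51, h42, h33, h24⟩ := moments6 y N
  rw [h20, h11, h02, h40, h31, h22, h13, h04, h60, h51, h42, h33, h24, hy, hN, hyN]
  rw [mom_odd y N 0 1 (by decide), mom_odd y N 0 3 (by decide), mom_odd y N 1 0 (by decide), mom_odd y N 1 2 (by decide), mom_odd y N 1 4 (by decide), mom_odd y N 2 1 (by decide), mom_odd y N 2 3 (by decide), mom_odd y N 3 0 (by decide), mom_odd y N 3 2 (by decide), mom_odd y N 4 1 (by decide), mom_odd y N 5 0 (by decide)]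
  unfold Phi k00 k01 k02 k03 k04 k10 k11 k12 k13 k14 k20 k21 k22 k23 k24 k30 k31 k32 k33 k40 k41 k42 k50 k51 k60
  ring

end P
end Kusner
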